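import Mathlib

set_option autoImplicit false

namespace Pool.Agent.H960R2.Cog

open Finset

variable {p : ℕ} [hp : Fact p.Prime]

/-- change of variables for two distinct slopes -/
noncomputable def slopeEquiv (m m' : ZMod p) (h : m ≠ m') :
    ZMod p × ZMod p ≃ ZMod p × ZMod p where
  toFun x := (x.1 * m - x.2, x.1 * m' - x.2)
  invFun y := ((y.1 - y.2) / (m - m'), ((y.1 - y.2) / (m - m')) * m - y.1)
  left_inv := by
    rintro ⟨a, b⟩
    have h' : m - m' ≠ 0 := sub_ne_zero.2 h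
    have : (a * m - b - (a * m' - b)) / (m - m') = a := by
      field_simp
      ring
    simp only [this]
    ext <;> simp
  right_inv := by
    rintro ⟨c, c'⟩
    have h' : m - m' ≠ 0 := sub_ne_zero.2 h
    have h1 : (c - c') / (m - m') * m' - ((c - c') / (m - m') * m - c) = c' := by
      have : (c - c') / (m - m') * (m - m') = c - c' := div_mul_cancel₀ _ h'
      linear_combination -this
    ext
    · simp
    · simpa using h1

lemma sum_shift (v : ZMod p × ZMod p → ℝ) (a m : ZMod p) :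
    ∑ b, v (m, a * m - b) = ∑ c, v (m, c) := by
  exact Equiv.sum_comp (Equiv.subLeft (a * m)) (fun c => v (m, c))

lemma sum_offdiag (v : ZMod p × ZMod p → ℝ) {m m' : ZMod p} (h : m ≠ m') :
    ∑ a, ∑ b, v (m, a * m - b) * v (m', a * m' - b) =
      (∑ c, v (m, c)) * (∑ c, v (m', c)) := by
  rw [Finset.sum_mul_sum, ← Fintype.sum_prod_type'
    (fun a b => v (m, a * m - b) * v (m', a * m' - b)),
    ← Fintype.sum_prod_type' (fun c c' => v (m, c) * v (m', c'))]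
  exact Fintype.sum_equiv (slopeEquiv m m' h) _ _ (fun x => rfl)

lemma sum_diag (v : ZMod p × ZMod p → ℝ) (m : ZMod p) :
    ∑ a, ∑ b, v (m, a * m - b) * v (m, a * m - b) = p * ∑ c, v (m, c) ^ 2 := by
  have : ∀ a : ZMod p, ∑ b, v (m, a * m - b) * v (m, a * m - b) = ∑ c, v (m, c) ^ 2 := by
    intro a
    have := sum_shift (fun x => v x ^ 2) a m
    simp only [sq] at this ⊢
    exact this
  rw [Finset.sum_congr rfl (fun a _ => this a), Finset.sum_const, Finset.card_univ, ZMod.card,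
    nsmul_eq_mul]

/-- neighbourhood sums -/
noncomputable def nb (v : ZMod p × ZMod p → ℝ) (x : ZMod p × ZMod p) : ℝ :=
  ∑ m, v (m, x.1 * m - x.2)

lemma sum_nb (v : ZMod p × ZMod p → ℝ) : ∑ x, nb v x = p * ∑ x, v x := by
  unfold nb
  rw [Fintype.sum_prod_type]
  simp only
  have h1 : ∀ a : ZMod p, ∑ b, ∑ m, v (m, a * m - b) = ∑ x, v x := by
    intro a
    rw [Finset.sum_comm, Fintype.sum_prod_type]
    exact Finset.sum_congr rfl (fun m _ => sum_shift v a m)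
  rw [Finset.sum_congr rfl (fun a _ => h1 a), Finset.sum_const, Finset.card_univ, ZMod.card,
    nsmul_eq_mul]

lemma sum_nb_sq (v : ZMod p × ZMod p → ℝ) :
    ∑ x, (nb v x) ^ 2 ≤ p * ∑ x, (v x) ^ 2 + (∑ x, v x) ^ 2 := by
  have h1 : ∑ x, (nb v x) ^ 2 = ∑ m, ∑ m', ∑ a, ∑ b, v (m, a * m - b) * v (m', a * m' - b) := by
    unfold nb
    rw [Fintype.sum_prod_type]
    simp only [sq, Finset.sum_mul_sum]
    -- ∑ a ∑ b ∑ m ∑ m'
    calc ∑ a : ZMod p, ∑ b : ZMod p, ∑ m, ∑ m', v (m, a * m - b) * v (m', a * m' - b)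
        = ∑ a : ZMod p, ∑ m, ∑ b : ZMod p, ∑ m', v (m, a * m - b) * v (m', a * m' - b) :=
          Finset.sum_congr rfl (fun a _ => Finset.sum_comm)
      _ = ∑ m, ∑ a : ZMod p, ∑ b : ZMod p, ∑ m', v (m, a * m - b) * v (m', a * m' - b) :=
          Finset.sum_comm
      _ = ∑ m, ∑ a : ZMod p, ∑ m', ∑ b : ZMod p, v (m, a * m - b) * v (m', a * m' - b) :=
          Finset.sum_congr rfl (fun m _ => Finset.sum_congr rfl (fun a _ => Finset.sum_comm))
      _ = ∑ m, ∑ m', ∑ a : ZMod p, ∑ b : ZMod p, v (m, a * m - b) * v (m', a * m' - b) :=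
          Finset.sum_congr rfl (fun m _ => Finset.sum_comm)
  have h2 : ∀ m m' : ZMod p, ∑ a, ∑ b, v (m, a * m - b) * v (m', a * m' - b) =
      (∑ c, v (m, c)) * (∑ c, v (m', c)) +
        (if m = m' then p * ∑ c, v (m, c) ^ 2 - (∑ c, v (m, c)) ^ 2 else 0) := by
    intro m m'
    by_cases h : m = m'
    · subst h
      rw [sum_diag, if_pos rfl]
      ring
    · rw [sum_offdiag v h, if_neg h, add_zero]
  have h3 : ∑ m, ∑ m', ((∑ c, v (m, c)) * (∑ c, v (m', c))) = (∑ x, v x) ^ 2 := by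
    rw [← Finset.sum_mul_sum, Fintype.sum_prod_type, sq]
  have h4 : ∑ m : ZMod p, ∑ m', (if m = m' then p * ∑ c, v (m, c) ^ 2 - (∑ c, v (m, c)) ^ 2 else 0)
      = p * ∑ x, (v x) ^ 2 - ∑ m, (∑ c, v (m, c)) ^ 2 := by
    have : ∀ m : ZMod p, ∑ m', (if m = m' then p * ∑ c, v (m, c) ^ 2 - (∑ c, v (m, c)) ^ 2 else 0)
        = p * ∑ c, v (m, c) ^ 2 - (∑ c, v (m, c)) ^ 2 := by
      intro m
      rw [Finset.sum_ite_eq]
      simp
    rw [Finset.sum_congr rfl (fun m _ => this m), Finset.sum_sub_distrib, ← Finset.mul_sum,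
      Fintype.sum_prod_type]
  rw [h1, Finset.sum_congr rfl (fun m _ => Finset.sum_congr rfl (fun m' _ => h2 m m'))]
  have h5 : ∑ m, ∑ m', ((∑ c, v (m, c)) * (∑ c, v (m', c)) +
        (if m = m' then p * ∑ c, v (m, c) ^ 2 - (∑ c, v (m, c)) ^ 2 else 0)) =
      (∑ x, v x) ^ 2 + (p * ∑ x, (v x) ^ 2 - ∑ m, (∑ c, v (m, c)) ^ 2) := by
    rw [← h3, ← h4, ← Finset.sum_add_distrib]
    exact Finset.sum_congr rfl (fun m _ => Finset.sum_add_distrib)
  rw [h5]
  have h6 : 0 ≤ ∑ m, (∑ c, v (m, c)) ^ 2 := Finset.sum_nonneg (fun _ _ => sq_nonneg _)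
  linarith

lemma sum_dev_sq (v : ZMod p × ZMod p → ℝ) :
    ∑ x, (nb v x - (∑ x, v x) / p) ^ 2 ≤ p * ∑ x, (v x) ^ 2 := by
  have hp0 : (p : ℝ) ≠ 0 := by exact_mod_cast hp.out.ne_zero
  have h1 : ∀ x, (nb v x - (∑ x, v x) / p) ^ 2 =
      (nb v x) ^ 2 - 2 * ((∑ x, v x) / p) * nb v x + ((∑ x, v x) / p) ^ 2 := by
    intro x; ring
  rw [Finset.sum_congr rfl (fun x _ => h1 x), Finset.sum_add_distrib, Finset.sum_sub_distrib,
    ← Finset.mul_sum, sum_nb, Finset.sum_const, Finset.card_univ, Fintype.card_prod, ZMod.card,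
    nsmul_eq_mul]
  have h2 := sum_nb_sq v
  have h3 : 2 * ((∑ x, v x) / p) * (p * ∑ x, v x) = 2 * (∑ x, v x) ^ 2 := by
    field_simp
  have h4 : ((p * p : ℕ) : ℝ) * ((∑ x, v x) / p) ^ 2 = (∑ x, v x) ^ 2 := by
    push_cast
    field_simp
  rw [h3, h4]
  linarith

/-- expander mixing inequality for the point-line graph -/
theorem mixing (v w : ZMod p × ZMod p → ℝ) :
    ∑ x, nb v x * w x ≤ (∑ x, v x) * (∑ x, w x) / p +
      Real.sqrt p / 2 * (∑ x, (v x) ^ 2 + ∑ x, (w x) ^ 2) := by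
  have hp0 : 0 < (p : ℝ) := by exact_mod_cast hp.out.pos
  have hsp : 0 < Real.sqrt p := Real.sqrt_pos.2 hp0
  set z : ZMod p × ZMod p → ℝ := fun x => nb v x - (∑ x, v x) / p with hz
  have h1 : ∑ x, nb v x * w x = ∑ x, z x * w x + (∑ x, v x) * (∑ x, w x) / p := by
    have : ∀ x, nb v x * w x = z x * w x + (∑ x, v x) / p * w x := by
      intro x; simp only [hz]; ring
    rw [Finset.sum_congr rfl (fun x _ => this x), Finset.sum_add_distrib, ← Finset.mul_sum]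
    ring
  have h2 : ∀ x, z x * w x ≤ 1 / (2 * Real.sqrt p) * (z x) ^ 2 + Real.sqrt p / 2 * (w x) ^ 2 := by
    intro x
    have h3 : 0 ≤ 1 / (2 * Real.sqrt p) * (z x - Real.sqrt p * w x) ^ 2 := by positivity
    have h4 : 1 / (2 * Real.sqrt p) * (z x - Real.sqrt p * w x) ^ 2 =
        1 / (2 * Real.sqrt p) * (z x) ^ 2 + Real.sqrt p / 2 * (w x) ^ 2 - z x * w x := by
      field_simp
      ring
    linarith
  have h5 : ∑ x, z x * w x ≤ 1 / (2 * Real.sqrt p) * ∑ x, (z x) ^ 2 +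
      Real.sqrt p / 2 * ∑ x, (w x) ^ 2 := by
    rw [Finset.mul_sum, Finset.mul_sum, ← Finset.sum_add_distrib]
    exact Finset.sum_le_sum (fun x _ => h2 x)
  have h6 : 1 / (2 * Real.sqrt p) * ∑ x, (z x) ^ 2 ≤ Real.sqrt p / 2 * ∑ x, (v x) ^ 2 := by
    have h7 := sum_dev_sq v
    have h8 : 1 / (2 * Real.sqrt p) * ∑ x, (z x) ^ 2 ≤
        1 / (2 * Real.sqrt p) * (p * ∑ x, (v x) ^ 2) :=
      mul_le_mul_of_nonneg_left h7 (by positivity)
    have h9 : 1 / (2 * Real.sqrt p) * (p * ∑ x, (v x) ^ 2) = Real.sqrt p / 2 * ∑ x, (v x) ^ 2 := by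
      have h10 : (p : ℝ) = Real.sqrt p ^ 2 := (Real.sq_sqrt hp0.le).symm
      have h11 : ∀ t : ℝ, 0 < t → ∀ A : ℝ, 1 / (2 * t) * (t ^ 2 * A) = t / 2 * A := by
        intro t ht A
        field_simp
      have h12 := h11 (Real.sqrt p) hsp (∑ x, (v x) ^ 2)
      rw [← h10] at h12
      exact h12
    linarith
  rw [h1, mul_add]
  linarith

end Pool.Agent.H960R2.Cog
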