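import Pool.Agent.H960R2.CogOp

set_option autoImplicit false

namespace Pool.Agent.H960R2.Cog

open Finset Filter Topology
open scoped Classical


section Numeric

lemma numeric {Q p k : ℝ} (hQ : 1 ≤ Q) (hp1 : Q / 2 ≤ p) (hp2 : p ≤ Q) (hk : 0 ≤ k)
    (h : (p ^ 3) ^ (9 / 10 : ℝ) ≤
      2 * ((2 * (2 * k + 1) * Q ^ (91 / 50 : ℝ)) ^ 2 / p + Real.sqrt p * p ^ 2)) :
    Q ^ (3 / 50 : ℝ) ≤ 144 * (2 * k + 1) ^ 2 := by
  have hQ0 : 0 < Q := by linarith
  have hp0 : 0 < p := by linarith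
  have e1 : (p ^ 3) ^ (9 / 10 : ℝ) = p ^ (27 / 10 : ℝ) := by
    rw [← Real.rpow_natCast, ← Real.rpow_mul hp0.le]
    norm_num
  have e2 : (Q / 2) ^ (27 / 10 : ℝ) ≤ p ^ (27 / 10 : ℝ) :=
    Real.rpow_le_rpow (by positivity) hp1 (by norm_num)
  have e3 : Q ^ (27 / 10 : ℝ) / 8 ≤ (Q / 2) ^ (27 / 10 : ℝ) := by
    rw [Real.div_rpow hQ0.le (by norm_num)]
    have h8 : (2 : ℝ) ^ (27 / 10 : ℝ) ≤ 8 := by
      calc (2 : ℝ) ^ (27 / 10 : ℝ) ≤ (2 : ℝ) ^ (3 : ℝ) :=
            Real.rpow_le_rpow_of_exponent_le (by norm_num) (by norm_num)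
        _ = 8 := by norm_num
    exact div_le_div_of_nonneg_left (by positivity) (by positivity) h8
  have e4 : (2 * (2 * k + 1) * Q ^ (91 / 50 : ℝ)) ^ 2 = 4 * (2 * k + 1) ^ 2 * Q ^ (91 / 25 : ℝ) := by
    have : (Q ^ (91 / 50 : ℝ)) ^ 2 = Q ^ (91 / 25 : ℝ) := by
      rw [← Real.rpow_natCast, ← Real.rpow_mul hQ0.le]
      norm_num
    rw [mul_pow, mul_pow, this]; ring
  have e5 : (2 * (2 * k + 1) * Q ^ (91 / 50 : ℝ)) ^ 2 / p ≤
      8 * (2 * k + 1) ^ 2 * Q ^ (66 / 25 : ℝ) := by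
    rw [e4, div_le_iff₀ hp0]
    have h6 : Q ^ (91 / 25 : ℝ) = Q ^ (66 / 25 : ℝ) * Q := by
      rw [← Real.rpow_add_one hQ0.ne']
      norm_num
    rw [h6]
    have h7 : 0 ≤ (2 * k + 1) ^ 2 * Q ^ (66 / 25 : ℝ) := by positivity
    nlinarith [mul_le_mul_of_nonneg_left hp1 h7]
  have e6 : Real.sqrt p * p ^ 2 ≤ Q ^ (66 / 25 : ℝ) := by
    have h6 : Real.sqrt p * p ^ 2 = p ^ (5 / 2 : ℝ) := by
      rw [Real.sqrt_eq_rpow, ← Real.rpow_natCast, ← Real.rpow_add hp0]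
      norm_num
    rw [h6]
    calc p ^ (5 / 2 : ℝ) ≤ Q ^ (5 / 2 : ℝ) := Real.rpow_le_rpow hp0.le hp2 (by norm_num)
      _ ≤ Q ^ (66 / 25 : ℝ) := Real.rpow_le_rpow_of_exponent_le hQ (by norm_num)
  have e7 : Q ^ (27 / 10 : ℝ) = Q ^ (3 / 50 : ℝ) * Q ^ (66 / 25 : ℝ) := by
    rw [← Real.rpow_add hQ0]; norm_num
  have e8 : Q ^ (3 / 50 : ℝ) * Q ^ (66 / 25 : ℝ) ≤ 144 * (2 * k + 1) ^ 2 * Q ^ (66 / 25 : ℝ) := by
    rw [← e7]
    rw [e1] at h
    have h9 : 1 * Q ^ (66 / 25 : ℝ) ≤ (2 * k + 1) ^ 2 * Q ^ (66 / 25 : ℝ) := by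
      apply mul_le_mul_of_nonneg_right _ (by positivity)
      nlinarith
    linarith
  exact le_of_mul_le_mul_right e8 (by positivity)

/-- exponential beats polynomial -/
lemma exists_k (q : ℕ) (hq : 3 ≤ q) : ∃ k : ℕ, 1 ≤ k ∧
    144 * (2 * (k : ℝ) + 1) ^ 2 < ((q : ℝ) ^ k) ^ (3 / 50 : ℝ) := by
  set c : ℝ := (q : ℝ) ^ (3 / 50 : ℝ) with hc
  have hq1 : (1 : ℝ) < q := by exact_mod_cast (by omega : 1 < q)
  have hc1 : 1 < c := Real.one_lt_rpow hq1 (by norm_num)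
  have h1 := tendsto_pow_const_div_const_pow_of_one_lt 2 hc1
  have h2 : ∀ᶠ n : ℕ in atTop, ((n : ℝ) ^ 2 / c ^ n) < 1 / 1296 :=
    h1.eventually (gt_mem_nhds (by norm_num))
  obtain ⟨k, hk1, hk2⟩ := (h2.and (eventually_ge_atTop 1)).exists
  refine ⟨k, hk2, ?_⟩
  have hck : 0 < c ^ k := by positivity
  rw [div_lt_iff₀ hck] at hk1
  have h3 : ((q : ℝ) ^ k) ^ (3 / 50 : ℝ) = c ^ k := by
    rw [hc, ← Real.rpow_natCast, ← Real.rpow_mul (by positivity), mul_comm, Real.rpow_mul (by positivity),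
      Real.rpow_natCast]
  rw [h3]
  have hk3 : (1 : ℝ) ≤ k := by exact_mod_cast hk2
  nlinarith

end Numeric

section Key

variable {H : Type*} [Group H]

lemma card_t (p : ℕ) [hp : Fact p.Prime] :
    Fintype.card ((ZMod p × ZMod p) × ZMod p) = p ^ 3 := by
  rw [Fintype.card_prod, Fintype.card_prod, ZMod.card]; ring

/-- the core of the argument -/
theorem key {r : ℕ} (hr : 2 ≤ r) (f : FreeGroup (Fin r) →* H) (hf : Function.Surjective f)
    (hU : ∀ r' : ℕ, 2 ≤ r' → ∀ f' : FreeGroup (Fin r') →* H, ∀ B : ℝ, 1 ≤ B →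
      (∀ n, (cog f' n : ℝ) ≤ (n + 1) * B ^ n) → (2 * (r' : ℝ) - 1) ^ (9 / 10 : ℝ) ≤ B)
    (hV : Summable (phiTerm f ((2 * (r : ℝ) - 1) ^ (-(91 / 100) : ℝ)) 1)) : False := by
  set s : ℝ := (2 * (r : ℝ) - 1) ^ (-(91 / 100) : ℝ) with hs
  haveI : Nonempty (Fin r) := ⟨⟨0, by omega⟩⟩
  have hq : qq (Fin r) = 2 * r - 1 := by rw [qq, Fintype.card_fin]
  have hqr : ((2 * r - 1 : ℕ) : ℝ) = 2 * (r : ℝ) - 1 := by
    rw [Nat.cast_sub (by omega)]; push_cast; ring
  have hr3 : (3 : ℝ) ≤ 2 * (r : ℝ) - 1 := by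
    have : (2 : ℝ) ≤ r := by exact_mod_cast hr
    linarith
  have hs0 : 0 < s := by rw [hs]; positivity
  have hs1 : s ≤ 1 := by
    rw [hs]
    exact Real.rpow_le_one_of_one_le_of_nonpos (by linarith) (by norm_num)
  have hqs : (qq (Fin r) : ℝ) * s ^ 2 ≤ 1 := by
    rw [hq, hqr]
    have h1 : s ^ 2 = (2 * (r : ℝ) - 1) ^ (-(91 / 50) : ℝ) := by
      rw [hs, ← Real.rpow_natCast, ← Real.rpow_mul (by linarith)]
      norm_num
    rw [h1]
    have h2 : (2 * (r : ℝ) - 1) * (2 * (r : ℝ) - 1) ^ (-(91 / 50) : ℝ) =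
        (2 * (r : ℝ) - 1) ^ (-(41 / 50) : ℝ) := by
      rw [← Real.rpow_one_add' (by linarith) (by norm_num)]
      norm_num
    rw [h2]
    exact Real.rpow_le_one_of_one_le_of_nonpos (by linarith) (by norm_num)
  obtain ⟨k, hk1, hk2⟩ := exists_k (2 * r - 1) (by omega)
  set Q : ℕ := (2 * r - 1) ^ k with hQ
  have hQodd : Odd Q := by
    rw [hQ]
    apply Odd.pow
    exact ⟨r - 1, by omega⟩
  have hQ3 : 3 ≤ Q := by
    calc 3 ≤ 2 * r - 1 := by omega
      _ = (2 * r - 1) ^ 1 := (pow_one _).symm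
      _ ≤ Q := Nat.pow_le_pow_right (by omega) hk1
  obtain ⟨N, hN⟩ := hQodd
  obtain ⟨p, hp, hNp, hp2N⟩ := Nat.exists_prime_lt_and_le_two_mul N (by omega)
  haveI : Fact p.Prime := ⟨hp⟩
  have hpQ : p ≤ Q := by omega
  have hpQ2 : Q ≤ 2 * p := by omega
  set n : ℕ := 2 * k with hn
  -- the family
  set b : Fin r × Bool := (⟨0, by omega⟩, true) with hb
  have hcard : Fintype.card (ZMod p × ZMod p) ≤ Fintype.card (sph n b : Finset (FreeGroup (Fin r))) := by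
    rw [Fintype.card_prod, ZMod.card, Fintype.card_coe, card_sph, hq, hn, pow_mul', ← hQ, sq]
    exact Nat.mul_le_mul hpQ hpQ
  obtain ⟨emb⟩ := Function.Embedding.nonempty_of_card_le hcard
  set S : ZMod p × ZMod p → FreeGroup (Fin r) := fun i => (emb i : FreeGroup (Fin r)) with hS
  have hSinj : Function.Injective S := by
    intro i j hij
    exact emb.injective (Subtype.ext hij)
  have hSn : ∀ i, FreeGroup.norm (S i) = n := fun i => norm_of_mem_sph (emb i).2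
  set M : ℝ := 2 * ((n : ℝ) + 1) * (s ^ n)⁻¹ with hM
  have hM0 : 0 ≤ M := by positivity
  have hsum1 : ∀ y, ∑ i, s ^ (FreeGroup.norm ((S i)⁻¹ * y)) ≤ M * s ^ (FreeGroup.norm y) :=
    fun y => sum_fam_le hs0 hqs n S hSinj hSn y
  have hsum2 : ∀ y, ∑ i, s ^ (FreeGroup.norm (((S i)⁻¹)⁻¹ * y)) ≤ M * s ^ (FreeGroup.norm y) := by
    intro y
    refine sum_fam_le hs0 hqs n (fun i => (S i)⁻¹) ?_ ?_ y
    · intro i j hij
      exact hSinj (inv_injective hij)
    · intro i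
      rw [FreeGroup.norm_inv_eq, hSn]
  set u : ZMod p × ZMod p → H := fun i => f (S i) with hu
  have hφ : ∀ x, 0 < phi f s x := fun x => phi_pos f hs0 hs1 hV (hf x)
  have hL : ∀ h : H → ℝ, (Function.support h).Finite →
      ∑' x, (op u h x) ^ 2 ≤ M ^ 2 * ∑' x, (h x) ^ 2 := by
    intro h hh
    refine schur u (phi f s) hφ hM0 ?_ ?_ h hh
    · intro x
      exact phi_sum_le f hs0 hs1 hV hf S hsum1 x
    · intro x
      have := phi_sum_le f hs0 hs1 hV hf (fun i => (S i)⁻¹) hsum2 x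
      simpa [hu] using this
  have hcardt := card_t p
  set e : Fin (p ^ 3) ≃ (ZMod p × ZMod p) × ZMod p := (Fintype.equivFinOfCardEq hcardt).symm
  have hcog := cog_diffHom_le u hL e
  have hp0 : (0 : ℝ) < p := by exact_mod_cast hp.pos
  have hp1 : (1 : ℝ) ≤ p := by exact_mod_cast hp.one_le
  have hB : 1 ≤ 2 * (M ^ 2 / p + Real.sqrt p * p ^ 2) := by
    have hs1' : 1 ≤ Real.sqrt p := by
      rw [Real.one_le_sqrt]; exact hp1
    have h1 : 0 ≤ M ^ 2 / p := by positivity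
    have h2 : 1 ≤ (p : ℝ) ^ 2 := one_le_pow₀ hp1
    nlinarith
  have hr' : 2 ≤ p ^ 3 := by
    calc 2 ≤ p := hp.two_le
      _ = p ^ 1 := (pow_one p).symm
      _ ≤ p ^ 3 := Nat.pow_le_pow_right hp.pos (by norm_num)
  have hfin := hU (p ^ 3) hr' (diffHom u e) _ hB hcog
  have h9 : ((p : ℝ) ^ 3) ^ (9 / 10 : ℝ) ≤ (2 * ((p ^ 3 : ℕ) : ℝ) - 1) ^ (9 / 10 : ℝ) := by
    apply Real.rpow_le_rpow (by positivity) _ (by norm_num)
    push_cast
    have : (1 : ℝ) ≤ (p : ℝ) ^ 3 := one_le_pow₀ hp1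
    linarith
  have hQr : ((Q : ℕ) : ℝ) = (2 * (r : ℝ) - 1) ^ k := by
    rw [hQ, Nat.cast_pow, hqr]
  have hsn : (s ^ n)⁻¹ = (Q : ℝ) ^ (91 / 50 : ℝ) := by
    rw [hQr, hs, hn, ← Real.rpow_natCast, ← Real.rpow_mul (by linarith), ← Real.rpow_neg (by linarith),
      ← Real.rpow_natCast, ← Real.rpow_mul (by linarith)]
    congr 1
    push_cast
    ring
  have hMeq : M = 2 * (2 * (k : ℝ) + 1) * (Q : ℝ) ^ (91 / 50 : ℝ) := by
    rw [hM, hsn, hn]; push_cast; ring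
  rw [hMeq] at hfin
  have hQ1 : (1 : ℝ) ≤ Q := by exact_mod_cast (by omega : 1 ≤ Q)
  have hc1 : (Q : ℝ) / 2 ≤ p := by
    have : (Q : ℝ) ≤ 2 * p := by exact_mod_cast hpQ2
    linarith
  have hc2 : (p : ℝ) ≤ Q := by exact_mod_cast hpQ
  have hnum := numeric hQ1 hc1 hc2 (by positivity) (h9.trans hfin)
  rw [hqr, ← hQr] at hk2
  linarith

end Key

section Limsup

variable {α : Type*} [DecidableEq α] [Fintype α] [Nonempty α] {G : Type*} [Group G]

/-- trivial operator bound -/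
lemma op_trivial (f : FreeGroup α →* G) (h : G → ℝ) (hh : (Function.support h).Finite) :
    ∑' x, (op (fun a : α × Bool => f (lmk a)) h x) ^ 2 ≤
      ((2 * Fintype.card α : ℕ) : ℝ) ^ 2 * ∑' x, (h x) ^ 2 := by
  refine schur _ (fun _ => 1) (fun _ => one_pos) (by positivity) ?_ ?_ h hh
  · intro x
    simp [Finset.sum_const, Finset.card_univ, Fintype.card_prod, mul_comm]
  · intro x
    simp [Finset.sum_const, Finset.card_univ, Fintype.card_prod, mul_comm]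

lemma cog_trivial (f : FreeGroup α →* G) (n : ℕ) :
    (cog f n : ℝ) ≤ (n + 1) * ((2 * Fintype.card α : ℕ) : ℝ) ^ n := by
  refine cog_le f ?_ (op_trivial f) n
  have : 1 ≤ Fintype.card α := Fintype.card_pos
  exact_mod_cast (by omega : 1 ≤ 2 * Fintype.card α)

/-- the sequence whose limsup is taken -/
noncomputable def cseq (f : FreeGroup α →* G) (n : ℕ) : ℝ := (cog f n : ℝ) ^ ((1 : ℝ) / (n : ℝ))

lemma cseq_nonneg (f : FreeGroup α →* G) (n : ℕ) : 0 ≤ cseq f n := by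
  unfold cseq; positivity

lemma cseq_le {f : FreeGroup α →* G} {B : ℝ} (hB : 1 ≤ B)
    (h : ∀ n, (cog f n : ℝ) ≤ (n + 1) * B ^ n) (n : ℕ) (hn : 1 ≤ n) :
    cseq f n ≤ ((n : ℝ) + 1) ^ ((1 : ℝ) / (n : ℝ)) * B := by
  unfold cseq
  have hn0 : (0 : ℝ) < n := by exact_mod_cast hn
  calc (cog f n : ℝ) ^ ((1 : ℝ) / (n : ℝ)) ≤ ((n + 1) * B ^ n) ^ ((1 : ℝ) / (n : ℝ)) :=
        Real.rpow_le_rpow (by positivity) (h n) (by positivity)
    _ = ((n : ℝ) + 1) ^ ((1 : ℝ) / (n : ℝ)) * B := by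
        rw [Real.mul_rpow (by positivity) (by positivity), ← Real.rpow_natCast, ← Real.rpow_mul (by positivity)]
        rw [mul_one_div_cancel hn0.ne', Real.rpow_one]

lemma tendsto_np1 : Tendsto (fun n : ℕ => ((n : ℝ) + 1) ^ ((1 : ℝ) / (n : ℝ))) atTop (𝓝 1) := by
  have h := tendsto_rpow_div_mul_add 1 1 0 (by norm_num)
  have h1 : Tendsto (fun n : ℕ => ((n : ℝ) + 1)) atTop atTop :=
    tendsto_atTop_add_const_right _ _ tendsto_natCast_atTop_atTop
  have h2 := (tendsto_rpow_div_mul_add 1 1 (-1) (by norm_num)).comp h1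
  refine h2.congr (fun n => ?_)
  simp

lemma limsup_cseq_le {f : FreeGroup α →* G} {B : ℝ} (hB : 1 ≤ B)
    (h : ∀ n, (cog f n : ℝ) ≤ (n + 1) * B ^ n) : limsup (cseq f) atTop ≤ B := by
  have h1 : Tendsto (fun n : ℕ => ((n : ℝ) + 1) ^ ((1 : ℝ) / (n : ℝ)) * B) atTop (𝓝 B) := by
    simpa using tendsto_np1.mul_const B
  have h2 : limsup (fun n : ℕ => ((n : ℝ) + 1) ^ ((1 : ℝ) / (n : ℝ)) * B) atTop = B := h1.limsup_eq
  rw [← h2]
  refine limsup_le_limsup ?_ ?_ ?_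
  · filter_upwards [eventually_ge_atTop 1] with n hn
    exact cseq_le hB h n hn
  · exact isCoboundedUnder_le_of_le atTop (fun n => cseq_nonneg f n)
  · exact h1.isBoundedUnder_le

lemma bdd_cseq (f : FreeGroup α →* G) : IsBoundedUnder (· ≤ ·) atTop (cseq f) := by
  have hB : (1 : ℝ) ≤ ((2 * Fintype.card α : ℕ) : ℝ) := by
    have : 1 ≤ Fintype.card α := Fintype.card_pos
    exact_mod_cast (by omega : 1 ≤ 2 * Fintype.card α)
  have h1 : Tendsto (fun n : ℕ => ((n : ℝ) + 1) ^ ((1 : ℝ) / (n : ℝ)) * ((2 * Fintype.card α : ℕ) : ℝ))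
      atTop (𝓝 (1 * ((2 * Fintype.card α : ℕ) : ℝ))) := tendsto_np1.mul_const _
  refine h1.isBoundedUnder_le.mono_le ?_
  filter_upwards [eventually_ge_atTop 1] with n hn
  exact cseq_le hB (cog_trivial f) n hn

lemma limsup_cseq_nonneg (f : FreeGroup α →* G) : 0 ≤ limsup (cseq f) atTop :=
  le_limsup_of_frequently_le (Frequently.of_forall (fun n => cseq_nonneg f n)) (bdd_cseq f)

/-- summability below the critical exponent -/
lemma summable_of_limsup (f : FreeGroup α →* G) {s : ℝ} (hs0 : 0 < s)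
    (h : limsup (cseq f) atTop < s⁻¹) : Summable (phiTerm f s 1) := by
  obtain ⟨σ, hσ1, hσ2⟩ := exists_between h
  have hσ0 : 0 < σ := lt_of_le_of_lt (limsup_cseq_nonneg f) hσ1
  have h1 := eventually_lt_of_limsup_lt hσ1 (bdd_cseq f)
  have hev : ∀ᶠ n : ℕ in atTop, (cog f n : ℝ) ≤ σ ^ n := by
    filter_upwards [h1, eventually_ge_atTop 1] with n hn hn1
    have hn0 : (0 : ℝ) < n := by exact_mod_cast hn1
    unfold cseq at hn
    have h2 : ((cog f n : ℝ) ^ ((1 : ℝ) / (n : ℝ))) ^ n ≤ σ ^ n :=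
      pow_le_pow_left₀ (by positivity) hn.le n
    rwa [← Real.rpow_natCast, ← Real.rpow_mul (by positivity), one_div_mul_cancel hn0.ne',
      Real.rpow_one] at h2
  have hσs : σ * s < 1 := by
    rw [← lt_div_iff₀ hs0, one_div]; exact hσ2
  have hsum : Summable (fun n : ℕ => (cog f n : ℝ) * s ^ n) := by
    refine Summable.of_norm_bounded_eventually_nat
      (summable_geometric_of_lt_one (by positivity) hσs) ?_
    filter_upwards [hev] with n hn
    rw [Real.norm_of_nonneg (by positivity), mul_pow]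
    exact mul_le_mul_of_nonneg_right hn (by positivity)
  obtain ⟨a⟩ := (inferInstance : Nonempty α)
  set b : α × Bool := (a, true)
  have hcnt : ∀ m, (((sphAll b m).filter (fun w => f w = 1)).card : ℝ) ≤ cog f m := by
    intro m
    have h3 : (((sphAll b m).filter (fun w => f w = 1) : Finset (FreeGroup α)) : Set (FreeGroup α)) ⊆
        {w : FreeGroup α | f w = 1 ∧ w.toWord.length ≤ m} := by
      intro w hw
      rw [mem_coe, mem_filter, mem_sphAll] at hw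
      refine ⟨hw.2, ?_⟩
      have := hw.1
      unfold FreeGroup.norm at this
      exact this.le
    have hfin : {w : FreeGroup α | f w = 1 ∧ w.toWord.length ≤ m}.Finite := by
      refine (Finset.finite_toSet ((Finset.range (m + 1)).biUnion (fun j => sphAll b j))).subset ?_
      rintro w ⟨hw1, hw2⟩
      simp only [coe_biUnion, Set.mem_iUnion, mem_coe, mem_sphAll, Finset.mem_range]
      exact ⟨w.toWord.length, by omega, rfl⟩
    have h4 := Set.ncard_le_ncard h3 hfin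
    rw [Set.ncard_coe_finset] at h4
    exact_mod_cast h4
  refine summable_of_sum_le (c := ∑' n, (cog f n : ℝ) * s ^ n) (phiTerm_nonneg f hs0 1) ?_
  intro t
  set K := t.sup (fun w => FreeGroup.norm w) with hK
  have h5 : ∀ w ∈ t, w ∈ (Finset.range (K + 1)).biUnion (fun j => sphAll b j) := by
    intro w hw
    simp only [mem_biUnion, Finset.mem_range, mem_sphAll]
    exact ⟨FreeGroup.norm w, Nat.lt_succ_of_le (Finset.le_sup (f := fun w => FreeGroup.norm w) hw), rfl⟩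
  have h6 : ∑ w ∈ t, phiTerm f s 1 w ≤
      ∑ w ∈ (Finset.range (K + 1)).biUnion (fun j => sphAll b j), phiTerm f s 1 w :=
    Finset.sum_le_sum_of_subset_of_nonneg h5 (fun w _ _ => phiTerm_nonneg f hs0 1 w)
  have h7 : ∑ w ∈ (Finset.range (K + 1)).biUnion (fun j => sphAll b j), phiTerm f s 1 w =
      ∑ j ∈ Finset.range (K + 1), ∑ w ∈ sphAll b j, phiTerm f s 1 w := by
    rw [Finset.sum_biUnion]
    intro i _ j _ hij
    rw [Function.onFun, Finset.disjoint_left]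
    intro w hw hw'
    rw [mem_sphAll] at hw hw'
    exact hij (hw.symm.trans hw')
  have h8 : ∀ j, ∑ w ∈ sphAll b j, phiTerm f s 1 w =
      (((sphAll b j).filter (fun w => f w = 1)).card : ℝ) * s ^ j := by
    intro j
    have : ∀ w ∈ sphAll b j, phiTerm f s 1 w = if f w = 1 then s ^ j else 0 := by
      intro w hw
      rw [mem_sphAll] at hw
      unfold phiTerm
      rw [hw]
    rw [Finset.sum_congr rfl this, ← Finset.sum_filter, Finset.sum_const, nsmul_eq_mul]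
  calc ∑ w ∈ t, phiTerm f s 1 w ≤ _ := h6
    _ = _ := h7
    _ ≤ ∑ j ∈ Finset.range (K + 1), (cog f j : ℝ) * s ^ j := by
        refine Finset.sum_le_sum (fun j _ => ?_)
        rw [h8]
        exact mul_le_mul_of_nonneg_right (hcnt j) (by positivity)
    _ ≤ _ := hsum.sum_le_tsum _ (fun j _ => by positivity)

end Limsup

end Pool.Agent.H960R2.Cog
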