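import Pool.Agent.H960R2.CogSchur
import Pool.Agent.H960R2.CogGraph

set_option autoImplicit false

namespace Pool.Agent.H960R2.Cog

open Finset
open scoped Classical


variable {H : Type*} [Group H]

lemma fs_mul_left {h : H → ℝ} (hh : (Function.support h).Finite) (g : H → ℝ) :
    (Function.support (fun x => g x * h x)).Finite := by
  refine hh.subset ?_
  intro x hx
  simp only [Function.mem_support] at hx ⊢
  intro h0
  apply hx
  rw [h0, mul_zero]

lemma fs_sq {h : H → ℝ} (hh : (Function.support h).Finite) :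
    (Function.support (fun x => (h x) ^ 2)).Finite := by
  refine hh.subset ?_
  intro x hx
  simp only [Function.mem_support] at hx ⊢
  intro h0
  apply hx
  rw [h0]; ring

/-- from a bilinear bound to an operator bound -/
lemma op_bound_of_bilin {ι : Type*} [Fintype ι] (u : ι → H) {B : ℝ} (hB : 0 < B)
    (hb : ∀ h k : H → ℝ, (Function.support h).Finite → (Function.support k).Finite →
      ∑' x, op u h x * k x ≤ B / 2 * (∑' x, (h x) ^ 2 + ∑' x, (k x) ^ 2))
    (h : H → ℝ) (hh : (Function.support h).Finite) :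
    ∑' x, (op u h x) ^ 2 ≤ B ^ 2 * ∑' x, (h x) ^ 2 := by
  have hk : (Function.support (fun x => B⁻¹ * op u h x)).Finite :=
    fs_mul_left (finite_support_op u hh) (fun _ => B⁻¹)
  have h1 := hb h (fun x => B⁻¹ * op u h x) hh hk
  have h2 : ∑' x, op u h x * (B⁻¹ * op u h x) = B⁻¹ * ∑' x, (op u h x) ^ 2 := by
    rw [← tsum_mul_left]
    exact tsum_congr (fun x => by ring)
  have h3 : ∑' x, (B⁻¹ * op u h x) ^ 2 = (B⁻¹) ^ 2 * ∑' x, (op u h x) ^ 2 := by
    rw [← tsum_mul_left]
    exact tsum_congr (fun x => by ring)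
  rw [h2, h3] at h1
  set N := ∑' x, (op u h x) ^ 2
  set M := ∑' x, (h x) ^ 2
  have h4 : B⁻¹ * N * (2 * B) ≤ B / 2 * (M + (B⁻¹) ^ 2 * N) * (2 * B) :=
    mul_le_mul_of_nonneg_right h1 (by positivity)
  have h5 : B⁻¹ * N * (2 * B) = 2 * N := by field_simp
  have h6 : B / 2 * (M + (B⁻¹) ^ 2 * N) * (2 * B) = B ^ 2 * M + N := by field_simp
  rw [h5, h6] at h4
  linarith

section Count

variable {α : Type*} [DecidableEq α] [Fintype α]

/-- number of (unreduced) words of length `m` with a given value -/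
noncomputable def wc (f : FreeGroup α →* H) : ℕ → H → ℝ
  | 0 => fun x => if x = 1 then 1 else 0
  | m + 1 => op (fun a : α × Bool => f (lmk a)) (wc f m)

lemma wc_zero (f : FreeGroup α →* H) : wc f 0 = fun x => if x = 1 then 1 else 0 := rfl

lemma wc_succ (f : FreeGroup α →* H) (m : ℕ) :
    wc f (m + 1) = op (fun a : α × Bool => f (lmk a)) (wc f m) := rfl

lemma wc_fs (f : FreeGroup α →* H) (m : ℕ) : (Function.support (wc f m)).Finite := by
  induction m with
  | zero =>
    refine (Set.finite_singleton (1 : H)).subset ?_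
    intro x hx
    simp only [Function.mem_support, wc_zero] at hx
    by_contra h
    rw [Set.mem_singleton_iff] at h
    rw [if_neg h] at hx
    exact hx rfl
  | succ m ih => rw [wc_succ]; exact finite_support_op _ ih

lemma wc_norm (f : FreeGroup α →* H) {B : ℝ}
    (hb : ∀ h : H → ℝ, (Function.support h).Finite →
      ∑' x, (op (fun a : α × Bool => f (lmk a)) h x) ^ 2 ≤ B ^ 2 * ∑' x, (h x) ^ 2) (m : ℕ) :
    ∑' x, (wc f m x) ^ 2 ≤ (B ^ 2) ^ m := by
  induction m with
  | zero =>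
    rw [wc_zero]
    have : ∀ x : H, ((if x = 1 then 1 else 0 : ℝ)) ^ 2 = if x = 1 then 1 else 0 := by
      intro x; split_ifs <;> norm_num
    rw [tsum_congr this, tsum_ite_eq]
    simp
  | succ m ih =>
    rw [wc_succ, pow_succ]
    have := hb (wc f m) (wc_fs f m)
    nlinarith [sq_nonneg B]

lemma wc_one_le (f : FreeGroup α →* H) {B : ℝ} (hB : 0 ≤ B)
    (hb : ∀ h : H → ℝ, (Function.support h).Finite →
      ∑' x, (op (fun a : α × Bool => f (lmk a)) h x) ^ 2 ≤ B ^ 2 * ∑' x, (h x) ^ 2) (m : ℕ) :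
    wc f m 1 ≤ B ^ m := by
  have h1 := wc_norm f hb m
  have h2 : (wc f m 1) ^ 2 ≤ ∑' x, (wc f m x) ^ 2 :=
    (summable_of_fs (fs_sq (wc_fs f m))).le_tsum 1 (fun j _ => sq_nonneg _)
  have h3 : (wc f m 1) ^ 2 ≤ (B ^ m) ^ 2 := by
    calc (wc f m 1) ^ 2 ≤ (B ^ 2) ^ m := h2.trans h1
      _ = (B ^ m) ^ 2 := by rw [← pow_mul, ← pow_mul, mul_comm]
  exact le_of_sq_le_sq h3 (pow_nonneg hB m)

/-- all words of length `m` -/
noncomputable def sphAll (b : α × Bool) (m : ℕ) : Finset (FreeGroup α) :=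
  sph m b ∪ sph m (linv b)

lemma mem_sphAll (b : α × Bool) (m : ℕ) (v : FreeGroup α) : v ∈ sphAll b m ↔ FreeGroup.norm v = m := by
  unfold sphAll
  rw [mem_union]
  constructor
  · rintro (h | h)
    · exact norm_of_mem_sph h
    · exact norm_of_mem_sph h
  · intro h
    exact mem_sph_or b h

lemma cnt_le_wc (f : FreeGroup α →* H) (b : α × Bool) (m : ℕ) : ∀ x : H,
    (((sphAll b m).filter (fun w => f w = x)).card : ℝ) ≤ wc f m x := by
  induction m with
  | zero =>
    intro x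
    have h1 : sphAll b 0 = {1} := by
      ext v
      rw [mem_sphAll, FreeGroup.norm_eq_zero, mem_singleton]
    rw [h1, wc_zero, Finset.filter_singleton]
    by_cases h : x = 1
    · subst h; simp
    · have : ¬ (f 1 = x) := by rw [_root_.map_one]; exact fun h' => h h'.symm
      rw [if_neg this]
      simp [h]
  | succ m ih =>
    intro x
    have h1 : (sphAll b (m + 1)).filter (fun w => f w = x) ⊆
        (Finset.univ : Finset (α × Bool)).biUnion (fun a =>
          ((sphAll b m).filter (fun w => f w = (f (lmk a))⁻¹ * x)).image (fun v => lmk a * v)) := by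
      intro w hw
      rw [mem_filter, mem_sphAll] at hw
      obtain ⟨hw1, hw2⟩ := hw
      rcases hz : w.toWord with _ | ⟨a, L⟩
      · unfold FreeGroup.norm at hw1
        rw [hz] at hw1; simp at hw1
      · simp only [mem_biUnion, mem_univ, true_and, mem_image, mem_filter, mem_sphAll]
        refine ⟨a, (lmk a)⁻¹ * w, ⟨?_, ?_⟩, by simp⟩
        · have hhead : w.toWord.head? = some a := by rw [hz]; rfl
          have := norm_cancel hhead
          omega
        · rw [_root_.map_mul, _root_.map_inv, hw2]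
    have h2 : ((sphAll b (m + 1)).filter (fun w => f w = x)).card ≤
        ∑ a : α × Bool, ((sphAll b m).filter (fun w => f w = (f (lmk a))⁻¹ * x)).card := by
      refine (Finset.card_le_card h1).trans (Finset.card_biUnion_le.trans ?_)
      exact Finset.sum_le_sum (fun a _ => Finset.card_image_le)
    have h3 : (((sphAll b (m + 1)).filter (fun w => f w = x)).card : ℝ) ≤
        ∑ a : α × Bool, (((sphAll b m).filter (fun w => f w = (f (lmk a))⁻¹ * x)).card : ℝ) := by
      exact_mod_cast h2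
    refine h3.trans ?_
    rw [wc_succ]
    unfold op
    exact Finset.sum_le_sum (fun a _ => ih _)

/-- the cogrowth function -/
noncomputable def cog (f : FreeGroup α →* H) (n : ℕ) : ℕ :=
  Nat.card {w : FreeGroup α // f w = 1 ∧ w.toWord.length ≤ n}

lemma cog_le_sum (f : FreeGroup α →* H) (b : α × Bool) (n : ℕ) :
    (cog f n : ℝ) ≤ ∑ m ∈ Finset.range (n + 1),
      (((sphAll b m).filter (fun w => f w = 1)).card : ℝ) := by
  have h1 : {w : FreeGroup α | f w = 1 ∧ w.toWord.length ≤ n} ⊆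
      (((Finset.range (n + 1)).biUnion (fun m => (sphAll b m).filter (fun w => f w = 1)) :
        Finset (FreeGroup α)) : Set (FreeGroup α)) := by
    rintro w ⟨hw1, hw2⟩
    simp only [coe_biUnion, Set.mem_iUnion, mem_coe, mem_filter, mem_sphAll, Finset.mem_range]
    exact ⟨w.toWord.length, by omega, rfl, hw1⟩
  have h2 : cog f n ≤ ((Finset.range (n + 1)).biUnion
      (fun m => (sphAll b m).filter (fun w => f w = 1))).card := by
    have := Set.ncard_le_ncard h1 (Finset.finite_toSet _)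
    rw [Set.ncard_coe_finset] at this
    exact this
  have h3 := h2.trans Finset.card_biUnion_le
  exact_mod_cast h3

lemma cog_le (f : FreeGroup α →* H) [Nonempty α] {B : ℝ} (hB : 1 ≤ B)
    (hb : ∀ h : H → ℝ, (Function.support h).Finite →
      ∑' x, (op (fun a : α × Bool => f (lmk a)) h x) ^ 2 ≤ B ^ 2 * ∑' x, (h x) ^ 2) (n : ℕ) :
    (cog f n : ℝ) ≤ (n + 1) * B ^ n := by
  obtain ⟨a⟩ := (inferInstance : Nonempty α)
  refine (cog_le_sum f (a, true) n).trans ?_
  have h1 : ∀ m ∈ Finset.range (n + 1),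
      (((sphAll (a, true) m).filter (fun w => f w = 1)).card : ℝ) ≤ B ^ n := by
    intro m hm
    rw [Finset.mem_range] at hm
    refine (cnt_le_wc f _ m 1).trans ((wc_one_le f (by linarith) hb m).trans ?_)
    exact pow_le_pow_right₀ hB (by omega)
  refine (Finset.sum_le_sum h1).trans ?_
  rw [Finset.sum_const, Finset.card_range, nsmul_eq_mul]
  push_cast
  exact le_refl _

end Count

section Expander

variable {p : ℕ} [hp : Fact p.Prime]

/-- the sparse family of differences -/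
def diffs (u : ZMod p × ZMod p → H) (t : (ZMod p × ZMod p) × ZMod p) : H :=
  (u t.1)⁻¹ * u (t.2, t.1.1 * t.2 - t.1.2)

lemma sum_t (v w : ZMod p × ZMod p → ℝ) :
    ∑ t : (ZMod p × ZMod p) × ZMod p, v (t.2, t.1.1 * t.2 - t.1.2) * w t.1 =
      ∑ x, nb v x * w x := by
  rw [Fintype.sum_prod_type]
  refine Finset.sum_congr rfl (fun x _ => ?_)
  unfold nb
  rw [Finset.sum_mul]

lemma tsum_fin {ι : Type*} [Fintype ι] (g : ι → H → ℝ)
    (hg : ∀ i, (Function.support (g i)).Finite) :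
    ∑' x, ∑ i, g i x = ∑ i, ∑' x, g i x :=
  Summable.tsum_finsetSum (fun i _ => summable_of_fs (hg i))

lemma fs_sum {ι : Type*} [Fintype ι] (g : ι → H → ℝ)
    (hg : ∀ i, (Function.support (g i)).Finite) :
    (Function.support (fun x => ∑ i, g i x)).Finite := by
  have : Function.support (fun x => ∑ i, g i x) ⊆ ⋃ i, Function.support (g i) := by
    intro x hx
    simp only [Function.mem_support] at hx
    obtain ⟨i, _, hi⟩ := Finset.exists_ne_zero_of_sum_ne_zero hx
    exact Set.mem_iUnion.2 ⟨i, hi⟩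
  exact (Set.finite_iUnion hg).subset this

lemma fs_add {g k : H → ℝ} (hg : (Function.support g).Finite) (hk : (Function.support k).Finite) :
    (Function.support (fun x => g x + k x)).Finite := by
  refine (hg.union hk).subset ?_
  intro x hx
  simp only [Function.mem_support, Set.mem_union] at hx ⊢
  by_contra h
  push Not at h
  apply hx
  rw [h.1, h.2, add_zero]

/-- bilinear bound for the sparse family of differences -/
theorem diffs_bilin (u : ZMod p × ZMod p → H) {L : ℝ}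
    (hL : ∀ h : H → ℝ, (Function.support h).Finite →
      ∑' x, (op u h x) ^ 2 ≤ L ^ 2 * ∑' x, (h x) ^ 2)
    (h k : H → ℝ) (hh : (Function.support h).Finite) (hk : (Function.support k).Finite) :
    ∑' x, (∑ t, (h ((diffs u t)⁻¹ * x) + h (diffs u t * x))) * k x ≤
      (L ^ 2 / p + Real.sqrt p * p ^ 2) * (∑' x, (h x) ^ 2 + ∑' x, (k x) ^ 2) := by
  have hp0 : 0 < (p : ℝ) := by exact_mod_cast hp.out.pos
  have fst : ∀ g : H, (Function.support (fun x => h (g * x))).Finite := by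
    intro g
    have := finite_support_translate g⁻¹ hh
    simpa using this
  have fstk : ∀ g : H, (Function.support (fun x => k (g * x))).Finite := by
    intro g
    have := finite_support_translate g⁻¹ hk
    simpa using this
  -- step 1: expand
  have e1 : ∑' x, (∑ t, (h ((diffs u t)⁻¹ * x) + h (diffs u t * x))) * k x =
      ∑ t, (∑' x, h ((diffs u t)⁻¹ * x) * k x + ∑' x, h (diffs u t * x) * k x) := by
    have e0 : ∀ x, (∑ t, (h ((diffs u t)⁻¹ * x) + h (diffs u t * x))) * k x =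
        ∑ t, (h ((diffs u t)⁻¹ * x) * k x + h (diffs u t * x) * k x) := by
      intro x
      rw [Finset.sum_mul]
      exact Finset.sum_congr rfl (fun t _ => add_mul _ _ _)
    rw [tsum_congr e0, tsum_fin _ (fun t => fs_add (fs_mul_left hk _) (fs_mul_left hk _))]
    refine Finset.sum_congr rfl (fun t _ => ?_)
    exact Summable.tsum_add (summable_of_fs (fs_mul_left hk _)) (summable_of_fs (fs_mul_left hk _))
  -- step 2: translate
  have e2 : ∀ t : (ZMod p × ZMod p) × ZMod p, ∑' x, h ((diffs u t)⁻¹ * x) * k x =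
      ∑' y, h ((u (t.2, t.1.1 * t.2 - t.1.2))⁻¹ * y) * k ((u t.1)⁻¹ * y) := by
    intro t
    rw [← (Equiv.mulLeft (u t.1)⁻¹).tsum_eq]
    refine tsum_congr (fun y => ?_)
    simp only [Equiv.coe_mulLeft, diffs, mul_inv_rev, inv_inv, mul_assoc, mul_inv_cancel_left]
  have e3 : ∀ t : (ZMod p × ZMod p) × ZMod p, ∑' x, h (diffs u t * x) * k x =
      ∑' y, h ((u t.1)⁻¹ * y) * k ((u (t.2, t.1.1 * t.2 - t.1.2))⁻¹ * y) := by
    intro t
    rw [← (Equiv.mulLeft (u (t.2, t.1.1 * t.2 - t.1.2))⁻¹).tsum_eq]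
    refine tsum_congr (fun y => ?_)
    simp only [Equiv.coe_mulLeft, diffs, mul_assoc, mul_inv_cancel_left]
  have f2 : ∀ t : (ZMod p × ZMod p) × ZMod p, (Function.support (fun y =>
      h ((u (t.2, t.1.1 * t.2 - t.1.2))⁻¹ * y) * k ((u t.1)⁻¹ * y))).Finite :=
    fun t => fs_mul_left (fstk _) _
  have f3 : ∀ t : (ZMod p × ZMod p) × ZMod p, (Function.support (fun y =>
      h ((u t.1)⁻¹ * y) * k ((u (t.2, t.1.1 * t.2 - t.1.2))⁻¹ * y))).Finite :=
    fun t => fs_mul_left (fstk _) _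
  have e4 : ∑ t, (∑' x, h ((diffs u t)⁻¹ * x) * k x + ∑' x, h (diffs u t * x) * k x) =
      ∑' y, (∑ x, nb (fun j => h ((u j)⁻¹ * y)) x * k ((u x)⁻¹ * y) +
        ∑ x, nb (fun j => k ((u j)⁻¹ * y)) x * h ((u x)⁻¹ * y)) := by
    rw [Finset.sum_add_distrib, Finset.sum_congr rfl (fun t _ => e2 t),
      Finset.sum_congr rfl (fun t _ => e3 t), ← tsum_fin _ f2, ← tsum_fin _ f3,
      ← Summable.tsum_add (summable_of_fs (fs_sum _ f2)) (summable_of_fs (fs_sum _ f3))]
    refine tsum_congr (fun y => ?_)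
    rw [← sum_t, ← sum_t]
    congr 1
    exact Finset.sum_congr rfl (fun t _ => mul_comm _ _)
  -- step 3: pointwise estimate
  have e5 : ∀ y, (∑ x, nb (fun j => h ((u j)⁻¹ * y)) x * k ((u x)⁻¹ * y) +
        ∑ x, nb (fun j => k ((u j)⁻¹ * y)) x * h ((u x)⁻¹ * y)) ≤
      ((op u h y) ^ 2 / p + (op u k y) ^ 2 / p) +
        (Real.sqrt p * ∑ i, h ((u i)⁻¹ * y) ^ 2 + Real.sqrt p * ∑ i, k ((u i)⁻¹ * y) ^ 2) := by
    intro y
    have m1 := mixing (fun j => h ((u j)⁻¹ * y)) (fun j => k ((u j)⁻¹ * y))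
    have m2 := mixing (fun j => k ((u j)⁻¹ * y)) (fun j => h ((u j)⁻¹ * y))
    simp only at m1 m2
    have m3 : (∑ x, h ((u x)⁻¹ * y)) * (∑ x, k ((u x)⁻¹ * y)) / p +
        (∑ x, k ((u x)⁻¹ * y)) * (∑ x, h ((u x)⁻¹ * y)) / p ≤
        (op u h y) ^ 2 / p + (op u k y) ^ 2 / p := by
      unfold op
      set A := ∑ x, h ((u x)⁻¹ * y)
      set C := ∑ x, k ((u x)⁻¹ * y)
      rw [← add_div, ← add_div]
      apply div_le_div_of_nonneg_right _ hp0.le
      nlinarith [sq_nonneg (A - C)]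
    linarith
  have g1 : (Function.support (fun y => (op u h y) ^ 2 / p)).Finite := by
    have := fs_mul_left (fs_sq (finite_support_op u hh)) (fun _ => (p : ℝ)⁻¹)
    refine this.subset ?_
    intro x hx
    simp only [Function.mem_support] at hx ⊢
    rwa [inv_mul_eq_div]
  have g2 : (Function.support (fun y => (op u k y) ^ 2 / p)).Finite := by
    have := fs_mul_left (fs_sq (finite_support_op u hk)) (fun _ => (p : ℝ)⁻¹)
    refine this.subset ?_
    intro x hx
    simp only [Function.mem_support] at hx ⊢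
    rwa [inv_mul_eq_div]
  have g3 : (Function.support (fun y => Real.sqrt p * ∑ i, h ((u i)⁻¹ * y) ^ 2)).Finite :=
    fs_mul_left (fs_sum _ (fun i => fs_sq (fst _))) _
  have g4 : (Function.support (fun y => Real.sqrt p * ∑ i, k ((u i)⁻¹ * y) ^ 2)).Finite :=
    fs_mul_left (fs_sum _ (fun i => fs_sq (fstk _))) _
  have e6 : ∑' y, (((op u h y) ^ 2 / p + (op u k y) ^ 2 / p) +
        (Real.sqrt p * ∑ i, h ((u i)⁻¹ * y) ^ 2 + Real.sqrt p * ∑ i, k ((u i)⁻¹ * y) ^ 2)) =
      (∑' y, (op u h y) ^ 2 / p + ∑' y, (op u k y) ^ 2 / p) +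
        (∑' y, Real.sqrt p * ∑ i, h ((u i)⁻¹ * y) ^ 2 +
          ∑' y, Real.sqrt p * ∑ i, k ((u i)⁻¹ * y) ^ 2) := by
    rw [Summable.tsum_add (summable_of_fs (fs_add g1 g2)) (summable_of_fs (fs_add g3 g4)),
      Summable.tsum_add (summable_of_fs g1) (summable_of_fs g2),
      Summable.tsum_add (summable_of_fs g3) (summable_of_fs g4)]
  have card2 : (Finset.univ : Finset (ZMod p × ZMod p)).card = p ^ 2 := by
    rw [Finset.card_univ, Fintype.card_prod, ZMod.card, sq]
  have e7 : ∑' y, Real.sqrt p * ∑ i, h ((u i)⁻¹ * y) ^ 2 =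
      Real.sqrt p * p ^ 2 * ∑' x, (h x) ^ 2 := by
    rw [tsum_mul_left, tsum_fin _ (fun i => fs_sq (fst _))]
    have : ∀ i : ZMod p × ZMod p, ∑' y, h ((u i)⁻¹ * y) ^ 2 = ∑' x, (h x) ^ 2 :=
      fun i => (Equiv.mulLeft (u i)⁻¹).tsum_eq (fun x => (h x) ^ 2)
    rw [Finset.sum_congr rfl (fun i _ => this i), Finset.sum_const, card2, nsmul_eq_mul]
    push_cast
    ring
  have e8 : ∑' y, Real.sqrt p * ∑ i, k ((u i)⁻¹ * y) ^ 2 =
      Real.sqrt p * p ^ 2 * ∑' x, (k x) ^ 2 := by
    rw [tsum_mul_left, tsum_fin _ (fun i => fs_sq (fstk _))]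
    have : ∀ i : ZMod p × ZMod p, ∑' y, k ((u i)⁻¹ * y) ^ 2 = ∑' x, (k x) ^ 2 :=
      fun i => (Equiv.mulLeft (u i)⁻¹).tsum_eq (fun x => (k x) ^ 2)
    rw [Finset.sum_congr rfl (fun i _ => this i), Finset.sum_const, card2, nsmul_eq_mul]
    push_cast
    ring
  have e9 : ∑' y, (op u h y) ^ 2 / p ≤ L ^ 2 / p * ∑' x, (h x) ^ 2 := by
    rw [tsum_div_const, div_mul_eq_mul_div]
    exact div_le_div_of_nonneg_right (hL h hh) hp0.le
  have e10 : ∑' y, (op u k y) ^ 2 / p ≤ L ^ 2 / p * ∑' x, (k x) ^ 2 := by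
    rw [tsum_div_const, div_mul_eq_mul_div]
    exact div_le_div_of_nonneg_right (hL k hk) hp0.le
  rw [e1, e4]
  have f5 : (Function.support (fun y => (∑ x, nb (fun j => h ((u j)⁻¹ * y)) x * k ((u x)⁻¹ * y) +
        ∑ x, nb (fun j => k ((u j)⁻¹ * y)) x * h ((u x)⁻¹ * y)))).Finite :=
    fs_add (fs_sum _ (fun x => fs_mul_left (fstk _) _)) (fs_sum _ (fun x => fs_mul_left (fst _) _))
  have e11 := Summable.tsum_le_tsum e5 (summable_of_fs f5)
    (summable_of_fs (fs_add (fs_add g1 g2) (fs_add g3 g4)))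
  rw [e6, e7, e8] at e11
  refine e11.trans ?_
  have e12 : (L ^ 2 / p + Real.sqrt p * p ^ 2) * (∑' x, (h x) ^ 2 + ∑' x, (k x) ^ 2) =
      L ^ 2 / p * ∑' x, (h x) ^ 2 + L ^ 2 / p * ∑' x, (k x) ^ 2 +
      (Real.sqrt p * p ^ 2 * ∑' x, (h x) ^ 2 + Real.sqrt p * p ^ 2 * ∑' x, (k x) ^ 2) := by ring
  rw [e12]
  linarith

/-- the homomorphism attached to the sparse family -/
noncomputable def diffHom (u : ZMod p × ZMod p → H) {N : ℕ}
    (e : Fin N ≃ (ZMod p × ZMod p) × ZMod p) : FreeGroup (Fin N) →* H :=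
  FreeGroup.lift (fun i => diffs u (e i))

lemma op_diffHom (u : ZMod p × ZMod p → H) {N : ℕ}
    (e : Fin N ≃ (ZMod p × ZMod p) × ZMod p) (h : H → ℝ) (x : H) :
    op (fun a : Fin N × Bool => diffHom u e (lmk a)) h x =
      ∑ t, (h ((diffs u t)⁻¹ * x) + h (diffs u t * x)) := by
  unfold op
  rw [Fintype.sum_prod_type, ← Equiv.sum_comp e]
  refine Finset.sum_congr rfl (fun i _ => ?_)
  rw [Fintype.sum_bool]
  have h1 : diffHom u e (lmk (i, true)) = diffs u (e i) := by
    simp [diffHom, lmk]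
  have h2 : diffHom u e (lmk (i, false)) = (diffs u (e i))⁻¹ := by
    simp [diffHom, lmk]
  show h ((diffHom u e (lmk (i, true)))⁻¹ * x) + h ((diffHom u e (lmk (i, false)))⁻¹ * x) = _
  rw [h1, h2, inv_inv]

/-- cogrowth bound for the sparse family -/
theorem cog_diffHom_le (u : ZMod p × ZMod p → H) {L : ℝ}
    (hL : ∀ h : H → ℝ, (Function.support h).Finite →
      ∑' x, (op u h x) ^ 2 ≤ L ^ 2 * ∑' x, (h x) ^ 2)
    {N : ℕ} (e : Fin N ≃ (ZMod p × ZMod p) × ZMod p) (n : ℕ) :
    (cog (diffHom u e) n : ℝ) ≤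
      (n + 1) * (2 * (L ^ 2 / p + Real.sqrt p * p ^ 2)) ^ n := by
  have hp2 : 2 ≤ p := hp.out.two_le
  have hp0 : 0 < (p : ℝ) := by exact_mod_cast hp.out.pos
  have hp1 : (1 : ℝ) ≤ p := by exact_mod_cast hp.out.one_le
  haveI : Nonempty (Fin N) := ⟨e.symm ((0, 0), 0)⟩
  have hs1 : 1 ≤ Real.sqrt p := by
    rw [Real.one_le_sqrt]; exact hp1
  have hB : 1 ≤ 2 * (L ^ 2 / p + Real.sqrt p * p ^ 2) := by
    have h1 : 0 ≤ L ^ 2 / p := by positivity
    have h2 : 1 ≤ (p : ℝ) ^ 2 := one_le_pow₀ hp1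
    nlinarith
  refine cog_le (diffHom u e) hB (fun h hh => ?_) n
  refine op_bound_of_bilin _ (by linarith) (fun h k hh hk => ?_) h hh
  have h1 := diffs_bilin u hL h k hh hk
  have h2 : ∑' x, op (fun a : Fin N × Bool => diffHom u e (lmk a)) h x * k x =
      ∑' x, (∑ t, (h ((diffs u t)⁻¹ * x) + h (diffs u t * x))) * k x :=
    tsum_congr (fun x => by rw [op_diffHom])
  rw [h2]
  have h3 : 2 * (L ^ 2 / p + Real.sqrt p * p ^ 2) / 2 = L ^ 2 / p + Real.sqrt p * p ^ 2 := by ring
  rw [h3]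
  exact h1

end Expander

end Pool.Agent.H960R2.Cog
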