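import Pool.Agent.H960R2.CogWords

set_option autoImplicit false

namespace Pool.Agent.H960R2.Cog

open Finset
open scoped Classical


variable {α : Type*} [DecidableEq α] {H : Type*} [Group H]

/-- weight function on the group -/
noncomputable def phiTerm (f : FreeGroup α →* H) (s : ℝ) (x : H) (w : FreeGroup α) : ℝ :=
  if f w = x then s ^ (FreeGroup.norm w) else 0

/-- Green-type function -/
noncomputable def phi (f : FreeGroup α →* H) (s : ℝ) (x : H) : ℝ := ∑' w, phiTerm f s x w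

lemma phiTerm_nonneg (f : FreeGroup α →* H) {s : ℝ} (hs0 : 0 < s) (x : H) (w : FreeGroup α) :
    0 ≤ phiTerm f s x w := by
  unfold phiTerm
  split_ifs
  · positivity
  · exact le_refl _

lemma phiTerm_mul (f : FreeGroup α →* H) (s : ℝ) (x : H) (v w : FreeGroup α) :
    phiTerm f s x (v * w) = if f w = (f v)⁻¹ * x then s ^ (FreeGroup.norm (v * w)) else 0 := by
  unfold phiTerm
  have : f (v * w) = x ↔ f w = (f v)⁻¹ * x := by
    rw [_root_.map_mul]
    constructor
    · intro h; rw [← h]; group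
    · intro h; rw [h]; group
  by_cases h : f (v * w) = x
  · rw [if_pos h, if_pos (this.1 h)]
  · rw [if_neg h, if_neg (fun h' => h (this.2 h'))]

lemma summable_phiTerm (f : FreeGroup α →* H) {s : ℝ} (hs0 : 0 < s) (hs1 : s ≤ 1)
    (hsum : Summable (phiTerm f s 1)) {x : H} (hx : ∃ w, f w = x) :
    Summable (phiTerm f s x) := by
  obtain ⟨w0, rfl⟩ := hx
  rw [← (Equiv.mulLeft w0).summable_iff]
  refine Summable.of_nonneg_of_le (fun w => phiTerm_nonneg f hs0 _ _) (fun w => ?_)
    (hsum.mul_left ((s ^ (FreeGroup.norm w0))⁻¹))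
  show phiTerm f s (f w0) (w0 * w) ≤ _
  rw [phiTerm_mul, inv_mul_cancel]
  unfold phiTerm
  split_ifs
  · have h1 : FreeGroup.norm w ≤ FreeGroup.norm w0 + FreeGroup.norm (w0 * w) := by
      have := FreeGroup.norm_mul_le (w0⁻¹) (w0 * w)
      rw [inv_mul_cancel_left, FreeGroup.norm_inv_eq] at this
      exact this
    have h2 : s ^ (FreeGroup.norm w0 + FreeGroup.norm (w0 * w)) ≤ s ^ (FreeGroup.norm w) :=
      pow_le_pow_of_le_one hs0.le hs1 h1
    rw [pow_add] at h2
    have h3 : 0 < s ^ FreeGroup.norm w0 := by positivity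
    rw [inv_mul_eq_div, le_div_iff₀ h3]
    linarith
  · simp

lemma phi_pos (f : FreeGroup α →* H) {s : ℝ} (hs0 : 0 < s) (hs1 : s ≤ 1)
    (hsum : Summable (phiTerm f s 1)) {x : H} (hx : ∃ w, f w = x) : 0 < phi f s x := by
  obtain ⟨w0, hw0⟩ := hx
  unfold phi
  refine (summable_phiTerm f hs0 hs1 hsum ⟨w0, hw0⟩).tsum_pos (phiTerm_nonneg f hs0 x) w0 ?_
  unfold phiTerm
  rw [if_pos hw0]
  positivity

lemma phi_inv_mul (f : FreeGroup α →* H) (s : ℝ) (v : FreeGroup α) (x : H) :
    phi f s ((f v)⁻¹ * x) = ∑' y, if f y = x then s ^ (FreeGroup.norm (v⁻¹ * y)) else 0 := by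
  unfold phi
  rw [← (Equiv.mulLeft v⁻¹).tsum_eq]
  refine tsum_congr (fun y => ?_)
  show phiTerm f s ((f v)⁻¹ * x) (v⁻¹ * y) = _
  rw [phiTerm_mul]
  have : f y = (f v⁻¹)⁻¹ * ((f v)⁻¹ * x) ↔ f y = x := by
    rw [_root_.map_inv, inv_inv, mul_inv_cancel_left]
  by_cases h : f y = x
  · rw [if_pos h, if_pos (this.2 h)]
  · rw [if_neg h, if_neg (fun h' => h (this.1 h'))]

lemma summable_phi_inv_mul (f : FreeGroup α →* H) {s : ℝ} (hs0 : 0 < s) (hs1 : s ≤ 1)
    (hsum : Summable (phiTerm f s 1)) (hf : Function.Surjective f) (v : FreeGroup α) (x : H) :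
    Summable (fun y => if f y = x then s ^ (FreeGroup.norm (v⁻¹ * y)) else 0) := by
  have h := summable_phiTerm f hs0 hs1 hsum (hf ((f v)⁻¹ * x))
  rw [← (Equiv.mulLeft v⁻¹).summable_iff] at h
  refine h.congr (fun y => ?_)
  show phiTerm f s ((f v)⁻¹ * x) (v⁻¹ * y) = _
  rw [phiTerm_mul]
  have : f y = (f v⁻¹)⁻¹ * ((f v)⁻¹ * x) ↔ f y = x := by
    rw [_root_.map_inv, inv_inv, mul_inv_cancel_left]
  by_cases h : f y = x
  · rw [if_pos h, if_pos (this.2 h)]
  · rw [if_neg h, if_neg (fun h' => h (this.1 h'))]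

/-- superharmonicity of `phi` for a family -/
lemma phi_sum_le (f : FreeGroup α →* H) {s : ℝ} (hs0 : 0 < s) (hs1 : s ≤ 1)
    (hsum : Summable (phiTerm f s 1)) (hf : Function.Surjective f)
    {ι : Type*} [Fintype ι] (S : ι → FreeGroup α) {M : ℝ}
    (hM : ∀ y, ∑ i, s ^ (FreeGroup.norm ((S i)⁻¹ * y)) ≤ M * s ^ (FreeGroup.norm y)) (x : H) :
    ∑ i, phi f s ((f (S i))⁻¹ * x) ≤ M * phi f s x := by
  have h1 : ∑ i, phi f s ((f (S i))⁻¹ * x) =
      ∑' y, ∑ i, (if f y = x then s ^ (FreeGroup.norm ((S i)⁻¹ * y)) else 0) := by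
    rw [Summable.tsum_finsetSum (fun i _ => summable_phi_inv_mul f hs0 hs1 hsum hf (S i) x)]
    exact Finset.sum_congr rfl (fun i _ => phi_inv_mul f s (S i) x)
  rw [h1]
  unfold phi
  rw [← tsum_mul_left]
  refine Summable.tsum_le_tsum (fun y => ?_)
    (summable_sum (fun i _ => summable_phi_inv_mul f hs0 hs1 hsum hf (S i) x))
    ((summable_phiTerm f hs0 hs1 hsum (hf x)).mul_left M)
  unfold phiTerm
  by_cases h : f y = x
  · simp only [if_pos h]
    exact hM y
  · simp only [if_neg h, Finset.sum_const_zero, mul_zero, le_refl]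

/-- translate-sum operator -/
noncomputable def op {ι : Type*} [Fintype ι] (u : ι → H) (h : H → ℝ) (x : H) : ℝ :=
  ∑ i, h ((u i)⁻¹ * x)

lemma finite_support_translate (u : H) {h : H → ℝ} (hh : (Function.support h).Finite) :
    (Function.support (fun x => h (u⁻¹ * x))).Finite := by
  have : Function.support (fun x => h (u⁻¹ * x)) = (fun x => u * x) '' Function.support h := by
    ext x
    simp only [Function.mem_support, Set.mem_image]
    constructor
    · intro hx; exact ⟨u⁻¹ * x, hx, by simp⟩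
    · rintro ⟨y, hy, rfl⟩; simpa using hy
  rw [this]
  exact hh.image _

lemma finite_support_op {ι : Type*} [Fintype ι] (u : ι → H) {h : H → ℝ}
    (hh : (Function.support h).Finite) : (Function.support (op u h)).Finite := by
  have : Function.support (op u h) ⊆ ⋃ i, Function.support (fun x => h ((u i)⁻¹ * x)) := by
    intro x hx
    simp only [Function.mem_support, op] at hx
    obtain ⟨i, _, hi⟩ := Finset.exists_ne_zero_of_sum_ne_zero hx
    exact Set.mem_iUnion.2 ⟨i, hi⟩
  exact (Set.finite_iUnion (fun i => finite_support_translate (u i) hh)).subset this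

lemma summable_of_fs {h : H → ℝ} (hh : (Function.support h).Finite) : Summable h :=
  summable_of_hasFiniteSupport hh

/-- Schur test -/
theorem schur {ι : Type*} [Fintype ι] (u : ι → H) (φ : H → ℝ) (hφ : ∀ x, 0 < φ x) {M : ℝ}
    (hM0 : 0 ≤ M)
    (h1 : ∀ x, ∑ i, φ ((u i)⁻¹ * x) ≤ M * φ x) (h2 : ∀ x, ∑ i, φ (u i * x) ≤ M * φ x)
    (h : H → ℝ) (hh : (Function.support h).Finite) :
    ∑' x, (op u h x) ^ 2 ≤ M ^ 2 * ∑' x, (h x) ^ 2 := by
  have hfs : ∀ g : H → ℝ, (Function.support (fun x => h x ^ 2 * g x)).Finite := by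
    intro g
    refine hh.subset ?_
    intro x hx
    simp only [Function.mem_support] at hx ⊢
    intro h0
    apply hx
    rw [h0]; ring
  -- pointwise
  have hpt : ∀ x, (op u h x) ^ 2 ≤
      ∑ i, M * φ (u i * ((u i)⁻¹ * x)) * (h ((u i)⁻¹ * x) ^ 2 / φ ((u i)⁻¹ * x)) := by
    intro x
    have h3 := Finset.sum_sq_le_sum_mul_sum_of_sq_le_mul Finset.univ
      (r := fun i => h ((u i)⁻¹ * x)) (f := fun i => φ ((u i)⁻¹ * x))
      (g := fun i => h ((u i)⁻¹ * x) ^ 2 / φ ((u i)⁻¹ * x))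
      (fun i _ => (hφ _).le) (fun i _ => div_nonneg (sq_nonneg _) (hφ _).le)
      (fun i _ => by rw [mul_div_cancel₀ _ (hφ ((u i)⁻¹ * x)).ne'])
    have h4 : 0 ≤ ∑ i, h ((u i)⁻¹ * x) ^ 2 / φ ((u i)⁻¹ * x) :=
      Finset.sum_nonneg (fun i _ => div_nonneg (sq_nonneg _) (hφ _).le)
    calc (op u h x) ^ 2 ≤ (∑ i, φ ((u i)⁻¹ * x)) * ∑ i, h ((u i)⁻¹ * x) ^ 2 / φ ((u i)⁻¹ * x) := h3
      _ ≤ (M * φ x) * ∑ i, h ((u i)⁻¹ * x) ^ 2 / φ ((u i)⁻¹ * x) :=
          mul_le_mul_of_nonneg_right (h1 x) h4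
      _ = _ := by
          rw [Finset.mul_sum]
          refine Finset.sum_congr rfl (fun i _ => ?_)
          rw [mul_inv_cancel_left]
  -- the function to be translated
  set G : ι → H → ℝ := fun i y => M * φ (u i * y) * (h y ^ 2 / φ y) with hG
  have hGfs : ∀ i, (Function.support (G i)).Finite := by
    intro i
    have := hfs (fun y => M * φ (u i * y) / φ y)
    refine this.subset ?_
    intro x hx
    simp only [Function.mem_support, hG] at hx ⊢
    intro h0
    apply hx
    rw [← h0]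
    ring
  have hGt : ∀ i, (Function.support (fun x => G i ((u i)⁻¹ * x))).Finite :=
    fun i => finite_support_translate (u i) (hGfs i)
  have hopfs : (Function.support (fun x => (op u h x) ^ 2)).Finite := by
    refine (finite_support_op u hh).subset ?_
    intro x hx
    simp only [Function.mem_support] at hx ⊢
    intro h0
    apply hx
    rw [h0]; ring
  have step1 : ∑' x, (op u h x) ^ 2 ≤ ∑' x, ∑ i, G i ((u i)⁻¹ * x) := by
    refine Summable.tsum_le_tsum hpt (summable_of_fs hopfs) ?_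
    exact summable_sum (fun i _ => summable_of_fs (hGt i))
  have step2 : ∑' x, ∑ i, G i ((u i)⁻¹ * x) = ∑' y, ∑ i, G i y := by
    rw [Summable.tsum_finsetSum (fun i _ => summable_of_fs (hGt i)),
      Summable.tsum_finsetSum (fun i _ => summable_of_fs (hGfs i))]
    refine Finset.sum_congr rfl (fun i _ => ?_)
    exact (Equiv.mulLeft (u i)⁻¹).tsum_eq (G i)
  have step3 : ∑' y, ∑ i, G i y ≤ ∑' y, M ^ 2 * (h y) ^ 2 := by
    refine Summable.tsum_le_tsum (fun y => ?_) (summable_sum (fun i _ => summable_of_fs (hGfs i))) ?_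
    · have h5 : ∑ i, G i y = M * (h y ^ 2 / φ y) * ∑ i, φ (u i * y) := by
        rw [Finset.mul_sum]
        refine Finset.sum_congr rfl (fun i _ => ?_)
        simp only [hG]; ring
      rw [h5]
      have h6 : 0 ≤ M * (h y ^ 2 / φ y) := mul_nonneg hM0 (div_nonneg (sq_nonneg _) (hφ _).le)
      calc M * (h y ^ 2 / φ y) * ∑ i, φ (u i * y) ≤ M * (h y ^ 2 / φ y) * (M * φ y) :=
            mul_le_mul_of_nonneg_left (h2 y) h6
        _ = M ^ 2 * (h y) ^ 2 := by
            field_simp [(hφ y).ne']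
    · have := hfs (fun _ => M ^ 2)
      refine (summable_of_fs this).congr (fun y => by ring)
  rw [tsum_mul_left] at step3
  linarith

end Pool.Agent.H960R2.Cog
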