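import Mathlib

set_option autoImplicit false

namespace Pool.Agent.H960R2.Cog

open FreeGroup Finset

variable {α : Type*} [DecidableEq α]

/-- the inverse letter -/
def linv (a : α × Bool) : α × Bool := (a.1, !a.2)

@[simp] lemma linv_linv (a : α × Bool) : linv (linv a) = a := by
  simp [linv]

lemma linv_ne (a : α × Bool) : linv a ≠ a := by
  intro h
  have := congrArg Prod.snd h
  simp [linv] at this

/-- a letter as an element of the free group -/
def lmk (a : α × Bool) : FreeGroup α := FreeGroup.mk [a]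

lemma lmk_linv (a : α × Bool) : lmk (linv a) = (lmk a)⁻¹ := by
  simp [lmk, linv, FreeGroup.inv_mk, FreeGroup.invRev]

lemma toWord_lmk_mul (a : α × Bool) (z : FreeGroup α) :
    (lmk a * z).toWord = if z.toWord.head? = some (linv a) then z.toWord.tail
      else a :: z.toWord := by
  have h1 : lmk a * z = FreeGroup.mk (a :: z.toWord) := by
    conv_lhs => rw [← FreeGroup.mk_toWord (x := z)]
    simp [lmk, FreeGroup.mul_mk]
  rw [h1, FreeGroup.toWord_mk, FreeGroup.reduce.cons, FreeGroup.reduce_toWord]
  rcases hz : z.toWord with _ | ⟨hd, tl⟩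
  · simp
  · obtain ⟨x, e⟩ := hd
    obtain ⟨y, d⟩ := a
    simp only [List.head?_cons, Option.some.injEq, linv, Prod.mk.injEq, List.tail_cons]
    by_cases h : y = x ∧ d = !e
    · obtain ⟨rfl, rfl⟩ := h
      simp
    · rw [if_neg h, if_neg]
      rintro ⟨rfl, rfl⟩
      exact h ⟨rfl, by simp⟩

lemma toWord_inv_lmk_mul (a : α × Bool) (z : FreeGroup α) :
    ((lmk a)⁻¹ * z).toWord = if z.toWord.head? = some a then z.toWord.tail
      else linv a :: z.toWord := by
  rw [← lmk_linv, toWord_lmk_mul, linv_linv]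

lemma norm_cancel {a : α × Bool} {z : FreeGroup α} (h : z.toWord.head? = some a) :
    norm ((lmk a)⁻¹ * z) + 1 = norm z := by
  unfold FreeGroup.norm
  rw [toWord_inv_lmk_mul, if_pos h]
  rcases hz : z.toWord with _ | ⟨hd, tl⟩
  · rw [hz] at h; simp at h
  · simp

lemma norm_nocancel {a : α × Bool} {z : FreeGroup α} (h : z.toWord.head? ≠ some a) :
    norm ((lmk a)⁻¹ * z) = norm z + 1 := by
  unfold FreeGroup.norm
  rw [toWord_inv_lmk_mul, if_neg h]
  simp

lemma head_nocancel {a : α × Bool} {z : FreeGroup α} (h : z.toWord.head? ≠ some a) :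
    ((lmk a)⁻¹ * z).toWord.head? = some (linv a) := by
  rw [toWord_inv_lmk_mul, if_neg h]
  simp

lemma toWord_lmk_mul_of {a : α × Bool} {z : FreeGroup α} (h : z.toWord.head? ≠ some (linv a)) :
    (lmk a * z).toWord = a :: z.toWord := by
  rw [toWord_lmk_mul, if_neg h]

variable [Fintype α]

/-- reduced words of length `n` not starting with the letter `b` -/
noncomputable def sph : ℕ → (α × Bool) → Finset (FreeGroup α)
  | 0, _ => {1}
  | n + 1, b => (Finset.univ.erase b).biUnion
      (fun a => (sph n (linv a)).image (fun v => lmk a * v))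

lemma sph_zero (b : α × Bool) : sph 0 b = {1} := rfl

lemma sph_succ (n : ℕ) (b : α × Bool) : sph (n + 1) b = (Finset.univ.erase b).biUnion
      (fun a => (sph n (linv a)).image (fun v => lmk a * v)) := rfl

lemma mem_sph (n : ℕ) : ∀ (b : α × Bool) (v : FreeGroup α),
    v ∈ sph n b ↔ norm v = n ∧ v.toWord.head? ≠ some b := by
  induction n with
  | zero =>
    intro b v
    rw [sph_zero, mem_singleton, FreeGroup.norm_eq_zero]
    constructor
    · rintro rfl; simp
    · rintro ⟨h, -⟩; exact h
  | succ n ih =>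
    intro b v
    rw [sph_succ]
    simp only [mem_biUnion, mem_erase, mem_univ, and_true, mem_image]
    constructor
    · rintro ⟨a, hab, v', hv', rfl⟩
      rw [ih] at hv'
      obtain ⟨h1, h2⟩ := hv'
      have h3 := toWord_lmk_mul_of h2
      refine ⟨?_, ?_⟩
      · unfold FreeGroup.norm at h1 ⊢
        rw [h3, List.length_cons, h1]
      · rw [h3]
        simpa using hab
    · rintro ⟨h1, h2⟩
      rcases hz : v.toWord with _ | ⟨a, L⟩
      · unfold FreeGroup.norm at h1
        rw [hz] at h1; simp at h1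
      · refine ⟨a, ?_, (lmk a)⁻¹ * v, ?_, by simp⟩
        · rw [hz] at h2
          simpa using h2
        · rw [ih]
          have hhead : v.toWord.head? = some a := by rw [hz]; rfl
          have h4 := norm_cancel hhead
          refine ⟨by omega, ?_⟩
          intro h5
          have h6 : (lmk a * ((lmk a)⁻¹ * v)).toWord = ((lmk a)⁻¹ * v).toWord.tail := by
            rw [toWord_lmk_mul, if_pos h5]
          rw [mul_inv_cancel_left] at h6
          have h7 := congrArg List.length h6
          rw [List.length_tail] at h7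
          unfold FreeGroup.norm at h1 h4
          omega

lemma norm_of_mem_sph {n : ℕ} {b : α × Bool} {v : FreeGroup α} (h : v ∈ sph n b) :
    norm v = n := ((mem_sph n b v).1 h).1

/-- every word of length `n` lies in one of two restricted spheres -/
lemma mem_sph_or {n : ℕ} (b : α × Bool) {v : FreeGroup α} (h : norm v = n) :
    v ∈ sph n b ∨ v ∈ sph n (linv b) := by
  rw [mem_sph, mem_sph]
  by_cases h1 : v.toWord.head? = some b
  · right
    refine ⟨h, ?_⟩
    rw [h1]
    intro h2
    exact linv_ne b (Option.some.inj h2).symm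
  · left
    exact ⟨h, h1⟩

lemma norm_inv_mul_sph (n : ℕ) : ∀ (b : α × Bool) (v z : FreeGroup α), v ∈ sph n b →
    (z.toWord.head? = some b ∨ z = 1) → norm (v⁻¹ * z) = n + norm z := by
  induction n with
  | zero =>
    intro b v z hv _
    rw [sph_zero, mem_singleton] at hv
    subst hv
    simp
  | succ n ih =>
    intro b v z hv hz
    rw [sph_succ] at hv
    simp only [mem_biUnion, mem_erase, mem_univ, and_true, mem_image] at hv
    obtain ⟨a, hab, v', hv', rfl⟩ := hv
    have hz' : z.toWord.head? ≠ some a := by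
      rcases hz with hz | rfl
      · rw [hz]; intro h; exact hab (Option.some.inj h).symm
      · simp
    have h1 := norm_nocancel hz'
    have h2 := head_nocancel hz'
    have h3 := ih (linv a) v' ((lmk a)⁻¹ * z) hv' (Or.inl h2)
    rw [mul_inv_rev, mul_assoc, h3, h1]
    ring

/-- the number of continuations -/
noncomputable def qq (α : Type*) [Fintype α] : ℕ := 2 * Fintype.card α - 1

lemma card_erase_letter (b : α × Bool) :
    ((Finset.univ : Finset (α × Bool)).erase b).card = qq α := by
  rw [Finset.card_erase_of_mem (mem_univ _), Finset.card_univ, Fintype.card_prod, Fintype.card_bool,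
    qq, mul_comm]

lemma disj_sph (n : ℕ) (b : α × Bool) :
    (((Finset.univ : Finset (α × Bool)).erase b : Finset (α × Bool)) : Set (α × Bool)).PairwiseDisjoint
      (fun a => (sph n (linv a)).image (fun v => lmk a * v)) := by
  intro a _ a' _ haa'
  rw [Function.onFun, Finset.disjoint_left]
  intro v hv hv'
  simp only [mem_image] at hv hv'
  obtain ⟨w, hw, rfl⟩ := hv
  obtain ⟨w', hw', h⟩ := hv'
  have h1 := toWord_lmk_mul_of ((mem_sph _ _ _).1 hw).2
  have h2 := toWord_lmk_mul_of ((mem_sph _ _ _).1 hw').2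
  rw [h, h1] at h2
  exact haa' (List.cons.inj h2).1

lemma card_sph (n : ℕ) : ∀ b : α × Bool, (sph n b).card = (qq α) ^ n := by
  induction n with
  | zero => intro b; simp [sph_zero]
  | succ n ih =>
    intro b
    rw [sph_succ, Finset.card_biUnion (disj_sph n b)]
    have : ∀ a ∈ (Finset.univ : Finset (α × Bool)).erase b,
        ((sph n (linv a)).image (fun v => lmk a * v)).card = (qq α) ^ n := by
      intro a _
      rw [Finset.card_image_of_injective _ (mul_right_injective (lmk a)), ih]
    rw [Finset.sum_congr rfl this, Finset.sum_const, card_erase_letter, smul_eq_mul, pow_succ,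
      mul_comm]

lemma sum_sph_succ (n : ℕ) (b : α × Bool) (F : FreeGroup α → ℝ) :
    ∑ v ∈ sph (n + 1) b, F v = ∑ a ∈ (Finset.univ : Finset (α × Bool)).erase b,
      ∑ v ∈ sph n (linv a), F (lmk a * v) := by
  rw [sph_succ, Finset.sum_biUnion (disj_sph n b)]
  refine Finset.sum_congr rfl (fun a _ => ?_)
  rw [Finset.sum_image]
  intro x _ y _ h
  exact mul_right_injective (lmk a) h

/-- the main estimate on spheres -/
theorem sum_sph_le {s : ℝ} (hs0 : 0 < s) (hs : (qq α : ℝ) * s ^ 2 ≤ 1) (n : ℕ) :
    ∀ (b : α × Bool) (y : FreeGroup α),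
      ∑ v ∈ sph n b, s ^ (norm (v⁻¹ * y)) ≤ (n + 1) * (s ^ n)⁻¹ * s ^ (norm y) := by
  induction n with
  | zero => intro b y; simp [sph_zero]
  | succ n ih =>
    intro b y
    rw [sum_sph_succ]
    have hsn : 0 < s ^ n := pow_pos hs0 n
    have hsn1 : 0 < s ^ (n + 1) := pow_pos hs0 (n + 1)
    have hy0 : 0 < s ^ norm y := pow_pos hs0 _
    -- bound for each letter
    have hbound : ∀ a : α × Bool,
        ∑ v ∈ sph n (linv a), s ^ (norm ((lmk a * v)⁻¹ * y)) ≤
          (if y.toWord.head? = some a then (n + 1) * (s ^ (n + 1))⁻¹ * s ^ (norm y) else 0) +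
            (qq α : ℝ) ^ n * s ^ (n + 1 + norm y) := by
      intro a
      by_cases hya : y.toWord.head? = some a
      · rw [if_pos hya]
        have h1 : ∀ v ∈ sph n (linv a), s ^ (norm ((lmk a * v)⁻¹ * y)) =
            s ^ (norm (v⁻¹ * ((lmk a)⁻¹ * y))) := by
          intro v _; rw [mul_inv_rev, mul_assoc]
        rw [Finset.sum_congr rfl h1]
        have h2 := ih (linv a) ((lmk a)⁻¹ * y)
        have h3 := norm_cancel hya
        have h4 : s ^ (norm y) = s ^ (norm ((lmk a)⁻¹ * y)) * s := by
          rw [← h3, pow_succ]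
        have h5 : (n + 1 : ℝ) * (s ^ n)⁻¹ * s ^ (norm ((lmk a)⁻¹ * y)) =
            (n + 1) * (s ^ (n + 1))⁻¹ * s ^ (norm y) := by
          rw [h4, pow_succ]
          field_simp
        have h6 : 0 ≤ (qq α : ℝ) ^ n * s ^ (n + 1 + norm y) := by positivity
        linarith
      · rw [if_neg hya, zero_add]
        have h1 : ∀ v ∈ sph n (linv a), s ^ (norm ((lmk a * v)⁻¹ * y)) =
            s ^ (n + 1 + norm y) := by
          intro v hv
          rw [mul_inv_rev, mul_assoc]
          have h2 := norm_nocancel hya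
          have h3 := head_nocancel hya
          rw [norm_inv_mul_sph n (linv a) v _ hv (Or.inl h3), h2]
          congr 1; ring
        rw [Finset.sum_congr rfl h1, Finset.sum_const, card_sph, nsmul_eq_mul]
        push_cast
        exact le_refl _
    refine le_trans (Finset.sum_le_sum (fun a _ => hbound a)) ?_
    rw [Finset.sum_add_distrib, Finset.sum_const, card_erase_letter, nsmul_eq_mul]
    -- at most one letter contributes
    have hone : ∑ a ∈ (Finset.univ : Finset (α × Bool)).erase b,
        (if y.toWord.head? = some a then ((n : ℝ) + 1) * (s ^ (n + 1))⁻¹ * s ^ (norm y) else 0) ≤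
          (n + 1) * (s ^ (n + 1))⁻¹ * s ^ (norm y) := by
      rcases hh : y.toWord.head? with _ | a0
      · simp only [reduceCtorEq, if_false, Finset.sum_const_zero]
        positivity
      · simp only [Option.some.injEq]
        rw [Finset.sum_ite_eq]
        split_ifs
        · exact le_refl _
        · positivity
    have hrest : (qq α : ℝ) * ((qq α : ℝ) ^ n * s ^ (n + 1 + norm y)) ≤
        (s ^ (n + 1))⁻¹ * s ^ (norm y) := by
      have h1 : (qq α : ℝ) * ((qq α : ℝ) ^ n * s ^ (n + 1 + norm y)) =
          ((qq α : ℝ) * s ^ 2) ^ (n + 1) * ((s ^ (n + 1))⁻¹ * s ^ (norm y)) := by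
        rw [mul_pow, ← pow_mul, pow_add]
        field_simp
        ring
      rw [h1]
      have h2 : ((qq α : ℝ) * s ^ 2) ^ (n + 1) ≤ 1 := pow_le_one₀ (by positivity) hs
      have h3 : 0 ≤ (s ^ (n + 1))⁻¹ * s ^ (norm y) := by positivity
      nlinarith
    push_cast
    push_cast at hone hrest
    linarith

/-- the estimate for a family contained in the sphere of radius `n` -/
theorem sum_fam_le {s : ℝ} (hs0 : 0 < s) (hs : (qq α : ℝ) * s ^ 2 ≤ 1) (n : ℕ)
    {ι : Type*} [Fintype ι] (S : ι → FreeGroup α) (hinj : Function.Injective S)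
    (hS : ∀ i, norm (S i) = n) [Nonempty α] (y : FreeGroup α) :
      ∑ i, s ^ (norm ((S i)⁻¹ * y)) ≤ 2 * (n + 1) * (s ^ n)⁻¹ * s ^ (norm y) := by
  classical
  obtain ⟨a⟩ := (inferInstance : Nonempty α)
  set b : α × Bool := (a, true)
  have h1 : ∑ i, s ^ (norm ((S i)⁻¹ * y)) = ∑ v ∈ Finset.univ.image S, s ^ (norm (v⁻¹ * y)) := by
    rw [Finset.sum_image]
    intro x _ y _ h
    exact hinj h
  have h2 : Finset.univ.image S ⊆ sph n b ∪ sph n (linv b) := by
    intro v hv
    simp only [mem_image, mem_univ, true_and] at hv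
    obtain ⟨i, rfl⟩ := hv
    rw [mem_union]
    exact mem_sph_or b (hS i)
  have h3 : ∑ v ∈ Finset.univ.image S, s ^ (norm (v⁻¹ * y)) ≤
      ∑ v ∈ sph n b ∪ sph n (linv b), s ^ (norm (v⁻¹ * y)) :=
    Finset.sum_le_sum_of_subset_of_nonneg h2 (fun _ _ _ => (pow_pos hs0 _).le)
  have h4 : ∑ v ∈ sph n b ∪ sph n (linv b), s ^ (norm (v⁻¹ * y)) ≤
      ∑ v ∈ sph n b, s ^ (norm (v⁻¹ * y)) + ∑ v ∈ sph n (linv b), s ^ (norm (v⁻¹ * y)) := by
    rw [← Finset.sum_union_inter]
    have : 0 ≤ ∑ v ∈ sph n b ∩ sph n (linv b), s ^ (norm (v⁻¹ * y)) :=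
      Finset.sum_nonneg (fun _ _ => (pow_pos hs0 _).le)
    linarith
  have h5 := sum_sph_le hs0 hs n b y
  have h6 := sum_sph_le hs0 hs n (linv b) y
  rw [h1]
  linarith

end Pool.Agent.H960R2.Cog
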